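import Pool.Agent.H.MP_96faa3_co.G

namespace Pool.Agent.Results.MP_96faa3_co.All

open Set Matroid Pool.Agent.H.MP_96faa3_co

def IsLinked (D : ℕ → ℕ → Prop) (X Y : Set ℕ) : Prop :=
  ∃ P : Set (List ℕ), (∀ p ∈ P, p ≠ [] ∧ p.Nodup ∧ p.IsChain D) ∧
    (∀ p ∈ P, ∀ q ∈ P, p ≠ q → p.Disjoint q) ∧
    X = {x | ∃ p ∈ P, p.head? = some x} ∧ Y = {y | ∃ p ∈ P, p.getLast? = some y}

def Induced (M N : Matroid ℕ) : Prop :=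
  ∃ (T : Set ℕ) (D : ℕ → ℕ → Prop), T.Finite ∧ (∀ u v, D u v → u ∈ T ∧ v ∈ T) ∧ M.E ⊆ T ∧
    N.E ⊆ T ∧ ∀ X, N.Indep X ↔ X ⊆ N.E ∧ ∃ Y, M.Indep Y ∧ IsLinked D X Y

def IsGammoid (N : Matroid ℕ) : Prop := ∃ S : Set ℕ, Induced (freeOn S) N

def SBO (M : Matroid ℕ) : Prop :=
  ∀ B₁ B₂, M.IsBase B₁ → M.IsBase B₂ →
    ∃ φ : ℕ → ℕ, BijOn φ B₁ B₂ ∧ ∀ X ⊆ B₁, M.IsBase (B₁ \ X ∪ φ '' X)

def BO (M : Matroid ℕ) : Prop :=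
  ∀ B₁ B₂, M.IsBase B₁ → M.IsBase B₂ →
    ∃ φ : ℕ → ℕ, BijOn φ B₁ B₂ ∧ ∀ X ⊆ B₁, X.ncard = 1 ∨ X.ncard + 1 = B₁.ncard →
      M.IsBase (B₁ \ X ∪ φ '' X)

def Complete (C : Set (Matroid ℕ)) : Prop :=
  (∀ M ∈ C, M.E.Finite) ∧
  (∀ M ∈ C, ∀ (f : ℕ → ℕ) (hf : InjOn f M.E), M.map f hf ∈ C) ∧
  (∀ M ∈ C, ∀ A ⊆ M.E, M ↾ A ∈ C) ∧
  (∀ M ∈ C, ∀ A ⊆ M.E, M ／ A ∈ C) ∧
  (∀ M ∈ C, M✶ ∈ C) ∧
  (∀ M ∈ C, ∀ N ∈ C, ∀ h : Disjoint M.E N.E, M.disjointSum N h ∈ C) ∧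
  (∀ M ∈ C, ∀ (k : ℕ) (N : Matroid ℕ), (k : ℕ∞) ≤ M.eRank → N.E = M.E →
    (∀ I, N.Indep I ↔ M.Indep I ∧ I.encard ≤ k) → N ∈ C) ∧
  (∀ M ∈ C, ∀ N, Induced M N → N ∈ C)

theorem result (P : Matroid ℕ → Prop) (hP : P = IsGammoid ∨ P = SBO ∨ P = BO)
    (F : Set (Matroid ℕ)) (hF : F.Finite) (hG : ∀ M ∈ F, M.E.Finite ∧ ¬ P M) :
    ∃ C : Set (Matroid ℕ), Complete C ∧ (∀ M ∈ F, M ∉ C) ∧ ∃ N ∈ C, ¬ P N := by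
  have g1 : ∀ M, IsGammoid M ↔ Gam M := fun M =>
    ⟨fun ⟨S, T, D, a, b, c, d, e⟩ => ⟨T, S, D, a, b, c, d, by
      simp only [freeOn_indep_iff] at e
      exact e⟩, fun ⟨T, S, D, a, b, c, d, e⟩ => ⟨S, T, D, a, b, c, d, by
      simp only [freeOn_indep_iff]
      exact e⟩⟩
  have g2 : ∀ M, IsGammoid M → SBO M := fun M h _ _ => ((g1 M).1 h).sbo
  have g3 : ∀ M, SBO M → BO M := fun M h _ _ a b =>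
    (h _ _ a b).imp fun φ h => ⟨h.1, fun X hX _ => h.2 X hX⟩
  have p1 : ∀ M, IsGammoid M → P M := fun M h => by
    rcases hP with rfl | rfl | rfl
    exacts [h, g2 M h, g3 M (g2 M h)]
  have p2 : ∀ M, P M → BO M := fun M h => by
    rcases hP with rfl | rfl | rfl
    exacts [g3 M (g2 M h), g3 M h, h]
  obtain ⟨k, hk⟩ := (hF.image fun M => M.E.ncard).bddAbove
  obtain ⟨N, h1, A, B, hA, hB, h2⟩ := exists_N' (2 ^ k)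
  refine ⟨{M | LG (2 ^ k) M}, ⟨fun M h => h.1, fun M h f hf => h.map f hf,
    fun M h A hA => h.restrict hA, fun M h A _ => h.contract A, fun M h => h.dual,
    fun M h N h' hd => h.sum h' hd, fun M h t N _ h1 h2 => h.trunc t h1 h2,
    fun M h N ⟨T, D, h1, h2, _, h3, h4⟩ => h.induce h1 h2 h3 h4⟩, fun M hM h => ?_, N, h1,
    fun h => ?_⟩
  · exact (hG M hM).2 (p1 M ((g1 M).2 (good_gam (LG.good h (hk ⟨M, hM, rfl⟩)))))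
  · obtain ⟨φ, a, b⟩ := p2 N h A B hA hB
    exact h2 φ a b

end Pool.Agent.Results.MP_96faa3_co.All
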